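import Pool.Agent.Lib.MP_b5021c_nt.E.H57.NE

/-!
# Rows EV_FIN, EV_FNR: class V over the Eisenstein integers
-/

namespace Pool.Agent.B5.H57

open scoped LaurentPolynomial
open Polynomial Pool.Agent.B5
open Pool.Agent.MP_b5021c_nt (Eis)
open Pool.Agent.B5.H40 (uT)

theorem classV_norm {N : ℝ} {Q : RO Eis} (h : ClassV N Q) :
    ∃ al : Eis, ‖(Coef.emb al : ℂ)‖ = N := by
  obtain ⟨-, n, q, -, hq, -⟩ := h
  exact ⟨q.coeff 0, hq⟩

theorem ev (hJ : JevS) (hF : FpRedS) (hE2 : E2S) (hL : EvlS) (hM : EvmS) (hR : RkS) : EvS := by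
  have main : ∀ (k : ℕ) (al : Eis), nE al = k → BdV Eis ‖(Coef.emb al : ℂ)‖ (Bev (nE al)) := by
    intro k
    induction k using Nat.strong_induction_on with
    | _ k IH =>
    intro al hal P L _ _ _ _ _ phi D hDD hcl
    have IH' : ∀ ga : Eis, nE ga < nE al → BdV Eis ‖(Coef.emb ga : ℂ)‖ (Bev (nE ga)) := by
      intro ga hga
      exact IH (nE ga) (by omega) ga rfl
    have hpos : 1 ≤ nE al := by
      apply nE_pos
      rintro rfl
      have h1 := hcl.1
      rw [map_zero, norm_zero] at h1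
      linarith
    have h2 := nE_ne_two al
    -- small ranks
    by_cases hrk1 : Module.finrank ℤ L ≤ 1
    · have h3 : Bev 1 ≤ Bev (nE al) := hM.1 hpos
      rw [bev_one] at h3
      exact_mod_cast hrk1.trans h3
    -- norm at least three
    have h3 : 3 ≤ nE al := by
      by_contra hlt
      have h1 : nE al = 1 := by omega
      obtain ⟨hQ0, -, -, -, hrk, hrays⟩ := hE2 Eis P L phi D hDD (by omega)
      have hex : ∃ S, Ray D S := by
        by_contra hno
        push Not at hno
        have h4 : {b | Ray D b} = (∅ : Set L) := by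
          ext b
          simp [hno b]
        rw [h4] at hrk
        have h5 : rk (∅ : Set L) = 0 := by
          unfold rk
          simp
        omega
      obtain ⟨S, hS⟩ := hex
      obtain ⟨hle, hne⟩ := hrays S hS
      obtain ⟨n, m, q, f, -, -, -, hqN, hf0, hlt2, -⟩ := hL _ _ _ hcl hS.1 hQ0 hle hne
      have h4 := nE_congr hqN
      have h5 := nE_pos hf0
      omega
    by_cases hrk2 : Module.finrank ℤ L ≤ 2
    · have h4 : Bev 3 ≤ Bev (nE al) := hM.1 h3
      rw [bev_three] at h4
      have h5 : Module.finrank ℤ L ≤ Bev (nE al) := by omega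
      exact_mod_cast h5
    obtain ⟨P', L', _, _, _, _, _, phi', D', hFP, hrk, hle, -⟩ :=
      hF Eis P L phi D hDD (by omega) (Or.inl ⟨_, hcl⟩)
    obtain ⟨N', hN', hcl'⟩ := hle.1 _ hcl
    obtain ⟨al', hal'⟩ := classV_norm hcl'
    rw [← hal'] at hN' hcl'
    have h4 := nE_le hN'
    rcases lt_or_eq_of_le h4 with h5 | h5
    · have h6 := IH' al' h5 P' L' phi' D' hFP.dd hcl'
      have h7 : (Module.finrank ℤ L' : ℝ) ≤ (Bev (nE al) : ℝ) :=
        h6.trans (by exact_mod_cast hM.1 h4)
      rw [hrk] at h7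
      exact h7
    · have h6 := hJ P' L' phi' D' al' hFP (by omega) hcl' (by rw [h5]; exact IH')
      rw [hrk, h5] at h6
      exact_mod_cast h6
  intro al
  exact main (nE al) al rfl

theorem evr (hE : EvS) (hM : EvmS) : EvrS := by
  have key : ∀ (N : ℝ) (B : ℝ), (∀ al : Eis, ‖(Coef.emb al : ℂ)‖ = N → 1 ≤ nE al →
      (Bev (nE al) : ℝ) ≤ B) → BdV Eis N B := by
    intro N B hB P L _ _ _ _ _ phi D hDD hcl
    obtain ⟨al, hal⟩ := classV_norm hcl
    have h1 := hE al P L phi D hDD (by rw [hal]; exact hcl)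
    refine h1.trans (hB al hal ?_)
    apply nE_pos
    rintro rfl
    have h2 := hcl.1
    rw [← hal, map_zero, norm_zero] at h2
    linarith
  have hsq : ∀ (N : ℝ) (al : Eis), ‖(Coef.emb al : ℂ)‖ = N → Real.sqrt (nE al) = N := by
    intro N al h
    rw [nE_sqrt, h]
  have h12 : ∀ N : ℝ, N ^ 2 ≠ 12 → BdV Eis N (2 * N) := by
    intro N hN
    apply key
    intro al hal h1
    have h2 : nE al ≠ 12 := by
      intro h3
      apply hN
      rw [← hal, ← nE_sq, h3]
      norm_num
    have h3 := hM.2.1 (nE al) h1 h2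
    rw [hsq N al hal] at h3
    exact h3
  refine ⟨?_, ?_, h12, ?_⟩
  · apply key
    intro al hal h1
    have h2 : nE al = 1 := by
      have h3 := nE_sq al
      rw [hal, one_pow] at h3
      exact_mod_cast h3
    rw [h2, bev_one, Nat.cast_one]
  · intro N
    apply key
    intro al hal h1
    have h3 := hM.2.2.1 (nE al)
    rw [hsq N al hal] at h3
    exact h3
  · intro N hN
    apply h12
    intro h
    nlinarith

end Pool.Agent.B5.H57
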