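import Pool.Agent.Lib.MP_b5021c_nt.E.H57.NE

/-!
# Row EV_JEV: the induction step in class V over the Eisenstein integers
-/

namespace Pool.Agent.B5.H57

open scoped LaurentPolynomial
open Polynomial Pool.Agent.B5
open Pool.Agent.MP_b5021c_nt (Eis)
open Pool.Agent.B5.H40 (uT)

theorem bbg_le (hM : EvmS) {nb : ℕ} : Bbg nb ≤ Bev nb := by
  unfold Bbg
  split_ifs with h
  · exact Nat.zero_le _
  · exact le_rfl

theorem jev (hOne : EvoS) (hL : EvlS) (hB : EvbS) (hP : EvpS) (hT : EvtS) (h7 : Ev7S) (hM : EvmS)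
    (hS : EvsS) (hA : AphS) (hC : CevS) (hTrv : TrvS) (hFD : FDS) (hE2 : E2S) (hR : RkS)
    (hAdj : AdjSyS) (hMV : MVS) : JevS := by
  intro P L _ _ _ _ _ phi D al hFP h3 hcl IH
  have hDD := hFP.dd
  obtain ⟨S, hray, hone⟩ := hOne Eis P L phi D hDD (by omega)
  obtain ⟨hQ0, -, -, -, -, hrays⟩ := hE2 Eis P L phi D hDD (by omega)
  obtain ⟨hle, hne⟩ := hrays S hray
  obtain ⟨n, m, q, f, hq, hf, hqz, hqN, hf0, hlt, hMf, hload⟩ :=
    hL _ _ _ hcl hray.1 hQ0 hle hne
  have hnal : nE (q.coeff 0) = nE al := nE_congr hqN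
  -- the port
  have hex : ∃ i0 : P, co phi i0 S = 1 := by
    by_contra hno
    push Not at hno
    apply hray.2.1
    apply hDD.inj
    rw [map_zero]
    funext i
    rcases hDD.bin S hray.1 i with h | h
    · exact h
    · exact absurd h (hno i)
  obtain ⟨i0, h⟩ := hex
  have hk0 : co phi i0 ≠ 0 := by
    intro h0
    rw [h0] at h
    simp at h
  have hker := (hR L L).1 (co phi i0) hk0
  have hv0 : ∀ v : Eisˣ,
      D.coeff 0 + ((uT v (n - m) : (RO Eis)ˣ) : RO Eis) * D.coeff S ≠ 0 := fun v =>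
    ((hMV Eis).1 _ _ (hload v).2.2.1).1
  have hcc : ∀ v : Eisˣ, CC phi D S i0 (uT v (n - m)) := fun v =>
    ⟨hDD, by omega, hray, h, hv0 v⟩
  have IH' : ∀ ga : Eis, nE ga < nE (q.coeff 0) → BdV Eis ‖(Coef.emb ga : ℂ)‖ (Bev (nE ga)) := by
    rw [hnal]
    exact IH
  have hcl' : ClassV ‖(Coef.emb (q.coeff 0) : ℂ)‖ (D.coeff 0) := by
    rw [hqN]
    exact hcl
  -- the best two loads
  obtain ⟨v₁, v₂, hadj, hcone⟩ := hB (q.coeff 0) (f.coeff 0)
  have key : ∀ v : Eisˣ, (v = v₁ ∨ v = v₂) →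
      nE (q.coeff 0 + v * f.coeff 0) < nE (q.coeff 0) ∧
        1 + Bev (nE (q.coeff 0 + v * f.coeff 0)) ≤ Bev (nE al) := by
    intro v hv
    have h1 := hP (q.coeff 0) (-(v * f.coeff 0))
      (neg_ne_zero.mpr (mul_ne_zero v.ne_zero hf0)) (by rw [nE_unit]; exact hlt) (hcone v hv)
    rw [sub_neg_eq_add, hnal] at h1
    rw [hnal]
    exact h1
  -- a load without drop and without small factors
  have good : ∀ v : Eisˣ, (v = v₁ ∨ v = v₂) →
      Module.finrank ℤ L = rk (supp (cl (co phi i0) S h (uT v (n - m)) D)) + 1 →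
      ∀ (c : RO Eis) (k : ℕ) (G : Fin k → AO Eis (Ker (co phi i0))),
        FD phi D S i0 (uT v (n - m)) h c k G → snp phi S i0 G = ∅ →
          Module.finrank ℤ L ≤ Bev (nE al) := by
    intro v hv hrk c k G hfd hsnp
    obtain ⟨h1, h2⟩ := key v hv
    obtain ⟨cn, nb, hnb, hcn, hrk2, -⟩ := hC P L phi D S i0 _ h c k G (q.coeff 0)
      (q.coeff 0 + v * f.coeff 0) (f.coeff 0) hFP hfd hcl' (hload v).2.2.1 hMf h1 IH'
    rw [hsnp, Finset.card_empty, zero_add] at hrk2
    have hcn1 : nb ≤ nE (q.coeff 0 + v * f.coeff 0) := by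
      rw [← hcn]
      apply Nat.le_mul_of_pos_left
      rcases Nat.eq_zero_or_pos cn with h0 | h0
      · exfalso
        rw [h0, zero_mul] at hcn
        have h5 : q.coeff 0 + v * f.coeff 0 = 0 := eq_zero_of_nE hcn.symm
        have h6 := (hload v).2.2.1.1
        rw [h5, map_zero, norm_zero] at h6
        linarith
      · exact h0
    have h4 : Bbg nb ≤ Bev (nE (q.coeff 0 + v * f.coeff 0)) :=
      (bbg_le hM).trans (hM.1 hcn1)
    omega
  -- a load without drop, the other one has a drop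
  have mixed : ∀ v v' : Eisˣ, (v = v₁ ∨ v = v₂) → Adj (uT v' (n - m)) (uT v (n - m)) →
      Module.finrank ℤ L = rk (supp (cl (co phi i0) S h (uT v (n - m)) D)) + 1 →
      Module.finrank ℤ L ≠ rk (supp (cl (co phi i0) S h (uT v' (n - m)) D)) + 1 →
          Module.finrank ℤ L ≤ Bev (nE al) := by
    intro v v' hv hadj' hrk hrk'
    obtain ⟨c, k, G, hfd⟩ := hFD Eis P L phi D S i0 _ h (hcc v)
    have hmn := (hload v).2.2.2
    have hq1 : 1 ≤ nE (q.coeff 0) := by omega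
    have hqR : (1 : ℝ) ≤ nE (q.coeff 0) := by exact_mod_cast hq1
    by_cases hx : 3 * nE (f.coeff 0) < nE (q.coeff 0)
    · apply good v hv hrk c k G hfd
      have hle1 := (hR (Ker (co phi i0)) (Ker (co phi i0))).2.2.1
        (supp (cl (co phi i0) S h (uT v' (n - m)) D))
      apply hA Eis P L phi D S i0 _ h c k G hfd (by omega) _ hadj' (hv0 v') _ (by omega)
      rw [hmn]
      rw [← mul_div_assoc, div_lt_one (by linarith)]
      exact_mod_cast hx
    · obtain ⟨h1, h2⟩ := key v hv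
      obtain ⟨cn, nb, hnb, hcn, hrk2, hcard⟩ := hC P L phi D S i0 _ h c k G (q.coeff 0)
        (q.coeff 0 + v * f.coeff 0) (f.coeff 0) hFP hfd hcl' (hload v).2.2.1 hMf h1 IH'
      have h5 := hT (q.coeff 0) (-(v * f.coeff 0))
        (neg_ne_zero.mpr (mul_ne_zero v.ne_zero hf0)) (by rw [nE_unit]; exact hlt) (hcone v hv)
        (by rw [nE_unit]; omega) cn nb (snp phi S i0 G).card hnb
      rw [sub_neg_eq_add, nE_unit] at h5
      rcases h5 hcn hcard with h6 | ⟨h6, h8⟩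
      · rw [hnal] at h6
        omega
      · obtain ⟨w, hw⟩ := h7 _ _ h6 h8
        obtain ⟨g1, g2, g3, -⟩ := hload w
        have hw1 : ‖(Coef.emb (q.coeff 0 + w * f.coeff 0) : ℂ)‖ = 1 := by
          have h9 := nE_sq (q.coeff 0 + w * f.coeff 0)
          rw [hw, Nat.cast_one] at h9
          nlinarith [norm_nonneg (Coef.emb (q.coeff 0 + w * f.coeff 0) : ℂ)]
        have hcoef : (q + C (w : Eis) * f).coeff 0 = q.coeff 0 + w * f.coeff 0 := by
          rw [coeff_add, coeff_C_mul]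
        have h10 := hTrv Eis P L phi D S (uT w (n - m)) n q (q + C (w : Eis) * f) hDD (by omega)
          hray hq g1 hqz g2 (by rw [hcoef]; exact hw1) 0 (by rw [norm_zero]; norm_num)
        rw [← coeff_zero_eq_eval_zero, ← coeff_zero_eq_eval_zero, coeff_map, coeff_map, hcoef]
          at h10
        have h11 : (Coef.emb (q.coeff 0) / Coef.emb (q.coeff 0 + w * f.coeff 0) : ℂ).re ≤
            ‖(Coef.emb (q.coeff 0) : ℂ)‖ := by
          refine (Complex.re_le_norm _).trans ?_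
          rw [norm_div, hw1, div_one]
        have h12 : ‖(Coef.emb (q.coeff 0) : ℂ)‖ < 3 := by
          have h13 := nE_sq (q.coeff 0)
          rw [h6] at h13
          push_cast at h13
          nlinarith [norm_nonneg (Coef.emb (q.coeff 0) : ℂ)]
        have h14 : (Module.finrank ℤ L : ℝ) < 6 := by linarith
        have h15 : Module.finrank ℤ L < 6 := by exact_mod_cast h14
        rw [← hnal, h6, bev_seven]
        omega
  have hadj12 := hadj (n - m)
  obtain ⟨hadj21, hne12, -⟩ := hAdj Eis _ _ hadj12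
  by_cases f1 : Module.finrank ℤ L = rk (supp (cl (co phi i0) S h (uT v₁ (n - m)) D)) + 1
  · by_cases f2 : Module.finrank ℤ L = rk (supp (cl (co phi i0) S h (uT v₂ (n - m)) D)) + 1
    · obtain ⟨c₁, k₁, G₁, hfd₁⟩ := hFD Eis P L phi D S i0 _ h (hcc v₁)
      obtain ⟨c₂, k₂, G₂, hfd₂⟩ := hFD Eis P L phi D S i0 _ h (hcc v₂)
      rcases hS Eis P L phi D S i0 _ _ h c₁ c₂ k₁ k₂ G₁ G₂ hfd₁ hfd₂ hne12 h3 (by omega)
        (by omega) with h5 | h5
      · exact good v₁ (Or.inl rfl) f1 c₁ k₁ G₁ hfd₁ h5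
      · exact good v₂ (Or.inr rfl) f2 c₂ k₂ G₂ hfd₂ h5
    · exact mixed v₁ v₂ (Or.inl rfl) hadj21 f1 f2
  · rcases hone i0 h _ _ hne12 with f2 | f2
    · exact absurd f2 f1
    · exact mixed v₂ v₁ (Or.inr rfl) hadj12 f2 f1

end Pool.Agent.B5.H57
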