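import Pool.Agent.Lib.MP_b5021c_nt.IfaceEV
import Pool.Agent.Lib.MP_b5021c_nt.IfaceKE
import Pool.Agent.Lib.MP_b5021c_nt.K.H25.Bch

/-!
# Board b5, chapter EV: class V over the integers, from class V over the Eisenstein integers
-/

namespace Pool.Agent.B5.H57

open Pool.Agent.B5
open Pool.Agent.MP_b5021c_nt (Eis)

/-- Class `V(N)` over the integers, `N ≥ 2`: rank at most `2 N`. -/
theorem evz (h : EvrS) : EvzS := by
  intro N hN
  have h1 : (1 : ℝ) ≤ 2 * (N : ℝ) := by
    have : (2 : ℝ) ≤ N := by exact_mod_cast hN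
    linarith
  refine H25.Bch.bdV_bc h1 (h.2.2.1 N ?_)
  intro h12
  have h2 : N ^ 2 = 12 := by exact_mod_cast h12
  have h3 : N < 4 := by nlinarith
  interval_cases N <;> omega

end Pool.Agent.B5.H57
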