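import Pool.Agent.Lib.MP_b5021c_nt.IfaceEV

/-!
# Chapter EV: the norm `nE`
-/

namespace Pool.Agent.B5.H57

open Pool.Agent.B5
open Pool.Agent.MP_b5021c_nt (Eis)

theorem nE_cast (x : Eis) : ((nE x : ℕ) : ℤ) = x.norm := by
  unfold nE
  exact Int.natAbs_of_nonneg (Pool.Agent.MP_b5021c_nt.Eis.norm_nonneg x)

theorem nE_sq (x : Eis) : (nE x : ℝ) = ‖(Coef.emb x : ℂ)‖ ^ 2 := by
  have h1 : (nE x : ℝ) = ((x.norm : ℤ) : ℝ) := by
    rw [← nE_cast]
    norm_cast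
  rw [h1]
  exact (Pool.Agent.MP_b5021c_nt.Eis.normSq_emb x).symm

theorem nE_sqrt (x : Eis) : Real.sqrt (nE x) = ‖(Coef.emb x : ℂ)‖ := by
  rw [nE_sq, Real.sqrt_sq (norm_nonneg _)]

theorem nE_congr {x y : Eis} (h : ‖(Coef.emb x : ℂ)‖ = ‖(Coef.emb y : ℂ)‖) : nE x = nE y := by
  have h1 : (nE x : ℝ) = (nE y : ℝ) := by rw [nE_sq, nE_sq, h]
  exact_mod_cast h1

theorem nE_le {x y : Eis} (h : ‖(Coef.emb x : ℂ)‖ ≤ ‖(Coef.emb y : ℂ)‖) : nE x ≤ nE y := by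
  have h1 : (nE x : ℝ) ≤ (nE y : ℝ) := by
    rw [nE_sq, nE_sq]
    exact pow_le_pow_left₀ (norm_nonneg _) h 2
  exact_mod_cast h1

theorem nE_unit (v : Eisˣ) (x : Eis) : nE (-((v : Eis) * x)) = nE x := by
  apply nE_congr
  rw [map_neg, norm_neg, map_mul, norm_mul]
  have h1 : ‖(Coef.emb (v : Eis) : ℂ)‖ = 1 :=
    Pool.Agent.MP_b5021c_nt.Eis.norm_emb_unit v.isUnit
  rw [h1, one_mul]

theorem nE_zero : nE 0 = 0 := by
  unfold nE
  rw [Pool.Agent.MP_b5021c_nt.Eis.norm_eq]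
  simp

theorem nE_pos {x : Eis} (h : x ≠ 0) : 1 ≤ nE x := by
  have h1 := Pool.Agent.MP_b5021c_nt.Eis.norm_pos h
  rw [← nE_cast] at h1
  exact_mod_cast h1

theorem eq_zero_of_nE {x : Eis} (h : nE x = 0) : x = 0 := by
  by_contra h0
  have := nE_pos h0
  omega

theorem nE_ne_two (x : Eis) : nE x ≠ 2 := by
  intro h
  have h1 := nE_cast x
  rw [h, Pool.Agent.MP_b5021c_nt.Eis.norm_eq] at h1
  set a := x.re
  set b := x.im
  have h2 : (2 * a - b) ^ 2 + 3 * b ^ 2 = 8 := by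
    push_cast at h1
    linarith
  have hb : b ^ 2 ≤ 2 := by nlinarith [sq_nonneg (2 * a - b)]
  have hb1 : b ≤ 1 := by nlinarith
  have hb2 : -1 ≤ b := by nlinarith
  have ha : (2 * a - b) ^ 2 ≤ 8 := by nlinarith [sq_nonneg b]
  have ha1 : 2 * a - b ≤ 2 := by nlinarith
  have ha2 : -2 ≤ 2 * a - b := by nlinarith
  have ha3 : a ≤ 1 := by omega
  have ha4 : -1 ≤ a := by omega
  interval_cases a <;> interval_cases b <;> omega

theorem bev_one : Bev 1 = 1 := rfl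

theorem bev_seven : Bev 7 = 5 := by
  unfold Bev
  rw [if_neg (by norm_num), if_neg (by norm_num)]
  norm_num

theorem bev_three : Bev 3 = 3 := by
  unfold Bev
  rw [if_neg (by norm_num), if_neg (by norm_num)]
  norm_num

end Pool.Agent.B5.H57
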